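import Pool.Agent.Helper78.JT.Goals
import Pool.Agent.Helper50.DT.MOM
import Pool.Agent.Helper35.DT.LAG
import Pool.Agent.Helper20.DT.IND

/-!
# JT, packet SMP: one polynomial sampler
-/

set_option autoImplicit false

namespace Pool.Agent.Helper39.JT

open Pool.Agent.Helper78.DT
open Pool.Agent.Helper78.JT
open scoped Classical

/-- The values of the polynomial at `2 k` points are almost independent: if one of the points is
taken only once, the average of the product of the centred indicators vanishes. -/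
theorem smp_ind (R M d j : ℕ) (hR : R.Prime) (hM : M ≤ R) (hj : j ≤ d) (φ : ℕ → Prop)
    (τ : Fin j → Fin M) (hτ : ∃ i, ∀ l, l ≠ i → τ l ≠ τ i) :
    av (fun θ : Fin d → Fin R => ∏ i, ((if φ (pv R d (ext θ) (τ i)) then (1 : ℝ) else 0) -
      pr (fun y : Fin R => φ y))) = 0 := by
  obtain ⟨i0, hi0⟩ := hτ
  have hR0 := hR.pos
  have hne : Nonempty (Fin R) := ⟨⟨0, hR0⟩⟩
  obtain ⟨A, hA⟩ : ∃ A : Finset (Fin M), A = Finset.univ.image τ := ⟨_, rfl⟩
  have hmem : ∀ i, τ i ∈ A := fun i => by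
    rw [hA]
    exact Finset.mem_image_of_mem _ (Finset.mem_univ i)
  obtain ⟨Φ, hΦ⟩ : ∃ Φ : Fin R → ℝ, Φ = fun s : Fin R =>
    (if φ (s : ℕ) then (1 : ℝ) else 0) - pr (fun y : Fin R => φ y) := ⟨_, rfl⟩
  have hΦ0 : av Φ = 0 := by
    rw [hΦ, av_sub, av_const, sub_eq_zero]
    rfl
  have hcard : Fintype.card A ≤ d := by
    rw [Fintype.card_coe, hA]
    exact (Finset.card_image_le.trans (le_of_eq (by rw [Finset.card_univ, Fintype.card_fin]))).trans hj
  have h1 := Pool.Agent.Helper20.DT.lag_av Pool.Agent.Helper35.DT.lag (R := R) (d := d) hR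
    (X := A) (fun x => ((x : Fin M) : ℕ)) (fun x y h => Subtype.ext (Fin.ext h))
    (fun x => (x : Fin M).2.trans_le hM) hcard (fun η => ∏ i, Φ (η ⟨τ i, hmem i⟩))
  have h2 : ∀ θ : Fin d → Fin R, ∏ i, ((if φ (pv R d (ext θ) (τ i)) then (1 : ℝ) else 0) -
      pr (fun y : Fin R => φ y)) =
      ∏ i, Φ (⟨pv R d (ext θ) ((⟨τ i, hmem i⟩ : A) : Fin M), Nat.mod_lt _ hR.pos⟩ : Fin R) := by
    intro θ
    rw [hΦ]
  rw [av_congr h2, h1]
  have h5 := Pool.Agent.Helper20.DT.av_split (⟨τ i0, hmem i0⟩ : A) Φ hΦ0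
    (fun η => ∏ i ∈ Finset.univ.erase i0, Φ (η ⟨τ i, hmem i⟩)) (by
      intro η b
      refine Finset.prod_congr rfl fun i hi => ?_
      have h6 : (⟨τ i, hmem i⟩ : A) ≠ ⟨τ i0, hmem i0⟩ := fun h =>
        hi0 i (Finset.ne_of_mem_erase hi) (congrArg Subtype.val h)
      rw [Function.update_of_ne h6])
  rw [← h5]
  refine av_congr fun η => ?_
  rw [Finset.mul_prod_erase Finset.univ (fun i => Φ (η ⟨τ i, hmem i⟩)) (Finset.mem_univ i0)]

theorem smp_one (R M d k : ℕ) (δ : ℝ) (hR : R.Prime) (hM0 : 0 < M) (hM : M ≤ R) (hd : 2 * k ≤ d)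
    (hδ : 0 < δ) (φ : ℕ → Prop) :
    pr (fun θ : Fin d → Fin R =>
      δ < |pr (fun a : Fin M => φ (pv R d (ext θ) a)) - pr (fun y : Fin R => φ y)|) ≤
    ((k : ℝ) ^ 2 / (M * δ ^ 2)) ^ k := by
  have hMp : (0 : ℝ) < M := by exact_mod_cast hM0
  obtain ⟨m, hm⟩ : ∃ m : ℝ, m = pr (fun y : Fin R => φ y) := ⟨_, rfl⟩
  have hb0 : 0 ≤ m := hm ▸ pr_nonneg _
  have hb1 : m ≤ 1 := hm ▸ pr_le_one _
  let Z : Fin M → (Fin d → Fin R) → ℝ := fun a θ =>
    (if φ (pv R d (ext θ) a) then (1 : ℝ) else 0) - m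
  have hZ : ∀ a θ, |Z a θ| ≤ 1 := by
    intro a θ
    simp only [Z]
    split_ifs
    · rw [abs_le]
      constructor <;> linarith
    · rw [abs_le]
      constructor <;> linarith
  have hmom : av (fun θ => (∑ a, Z a θ) ^ (2 * k)) ≤ (k : ℝ) ^ (2 * k) * (M : ℝ) ^ k := by
    refine Pool.Agent.Helper50.DT.mom _ M k Z hZ fun τ hτ => ?_
    have h := smp_ind R M d (2 * k) hR hM hd φ τ hτ
    rw [← hm] at h
    exact h
  have hsum : ∀ θ : Fin d → Fin R, ∑ a, Z a θ =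
      M * (pr (fun a : Fin M => φ (pv R d (ext θ) a)) - m) := by
    intro θ
    simp only [Z]
    rw [Finset.sum_sub_distrib, Finset.sum_const, Finset.card_univ, Fintype.card_fin, nsmul_eq_mul,
      mul_sub]
    congr 1
    unfold pr av
    rw [Fintype.card_fin]
    field_simp
  have hc : 0 < (M * δ) ^ (2 * k) := by positivity
  have hev : pr (fun θ : Fin d → Fin R =>
      δ < |pr (fun a : Fin M => φ (pv R d (ext θ) a)) - pr (fun y : Fin R => φ y)|) ≤
      pr (fun θ : Fin d → Fin R => (M * δ) ^ (2 * k) ≤ (∑ a, Z a θ) ^ (2 * k)) := by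
    refine pr_mono fun θ hθ => ?_
    rw [← hm] at hθ
    have e3 : M * δ ≤ |∑ a, Z a θ| := by
      rw [hsum, abs_mul, abs_of_pos hMp]
      exact mul_le_mul_of_nonneg_left hθ.le hMp.le
    calc (M * δ) ^ (2 * k) ≤ |∑ a, Z a θ| ^ (2 * k) := pow_le_pow_left₀ (by positivity) e3 _
      _ = (∑ a, Z a θ) ^ (2 * k) := by
        rw [pow_mul, pow_mul, sq_abs]
  have hnn : ∀ θ : Fin d → Fin R, 0 ≤ (∑ a, Z a θ) ^ (2 * k) := fun θ => by
    rw [pow_mul]
    positivity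
  refine (hev.trans (pr_ge_le hnn hc)).trans ?_
  rw [div_le_iff₀ hc]
  refine hmom.trans (le_of_eq ?_)
  have e5 : (k : ℝ) ^ (2 * k) * (M : ℝ) ^ k = ((k : ℝ) ^ 2 * M) ^ k := by
    rw [mul_pow, ← pow_mul]
  rw [e5, pow_mul, ← mul_pow]
  congr 1
  field_simp

/-- **SMP.** -/
theorem smp : SmpStmt := by
  intro R M d k δ hR hM0 hM hd hδ ι I φ
  refine (pr_exists_le I (fun i => fun θ : Fin d → Fin R =>
    δ < |pr (fun a : Fin M => φ i (pv R d (ext θ) a)) - pr (fun y : Fin R => φ i y)|)).trans ?_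
  refine (Finset.sum_le_sum fun i _ => smp_one R M d k δ hR hM0 hM hd hδ (φ i)).trans ?_
  rw [Finset.sum_const, nsmul_eq_mul]

end Pool.Agent.Helper39.JT
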